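import Mathlib
import Pool.Agent.TH3.IR.Proj
import Pool.Agent.TH603.Sur.Uni
import Pool.Agent.U11.Fam
import Pool.Agent.U11.Near

set_option autoImplicit false

/-!
# The Hilbert function of 11 and of 15 general fat points of the plane: the exceptional multiplicities

The case `n = 2`, `r = 11` or `r = 15` of the question: `R = ℂ[x₀, x₁, x₂]`, `r` general points of the
projective plane. Call `m` exceptional if
`H_{2,r,m}(d) = min (binom (d + 2) 2) (r * binom (m + 1) 2)` fails for at least one degree `d`. For every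
`ε > 0` and every large `m` the formula holds in every degree which is not a multiple of three with
`(√r - 3) / 2 - ε < d - √r m < (√r - 3) / 2`, and the gaps between the exceptional multiplicities tend to
infinity. For `27` points the degrees divisible by three are determined in the same way.
-/

namespace Pool.Agent.Results.MP_b56c98_ag.ExceptionalGaps

open MvPolynomial
open scoped LinearAlgebra.Projectivization
open Pool.Agent.H350R3.MG Pool.Agent.TH3.IR

/-- The `m`-th symbolic power of the ideal of the points `P₁, …, P_r`. -/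
noncomputable def symbolicPower {n r : ℕ} (m : ℕ) (P : Fin r → ℙ ℂ (Fin (n + 1) → ℂ)) :
    Ideal (MvPolynomial (Fin (n + 1)) ℂ) :=
  ⨅ i, primeIdeal (P i) ^ m

/-- The Hilbert function `dim R_d - dim J_d` of `R / J`. -/
noncomputable def hilbert {n : ℕ} (J : Ideal (MvPolynomial (Fin (n + 1)) ℂ)) (d : ℕ) : ℤ :=
  (Module.finrank ℂ (homogeneousSubmodule (Fin (n + 1)) ℂ d) : ℤ) -
    Module.finrank ℂ (homogeneousSubmodule (Fin (n + 1)) ℂ d ⊓ Submodule.restrictScalars ℂ J :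
      Submodule ℂ (MvPolynomial (Fin (n + 1)) ℂ))

/-- The cyclic change of the coordinates. -/
noncomputable def rot : MvPolynomial (Fin 3) ℂ ≃ₐ[ℂ] MvPolynomial (Fin 3) ℂ :=
  renameEquiv ℂ (finRotate 3)

theorem rot_X (i : Fin 3) : rot (X i) = X (finRotate 3 i) := by
  simp [rot]

theorem rot_C (c : ℂ) : rot (C c) = C c := by
  simp [rot]

theorem map_span_rot (p : Fin 2 → ℂ) :
    Ideal.map (rot : MvPolynomial (Fin 3) ℂ →+* MvPolynomial (Fin 3) ℂ)
      (Ideal.span ({X 0 - C (p 0) * X 2, X 1 - C (p 1) * X 2} : Set (MvPolynomial (Fin 3) ℂ))) =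
    Ideal.span (Set.range fun j : Fin 2 =>
        (X j.succ - C (p j) * X 0 : MvPolynomial (Fin 3) ℂ)) := by
  rw [Ideal.map_span]
  congr 1
  have e0 : finRotate 3 0 = 1 := by decide
  have e1 : finRotate 3 1 = 2 := by decide
  have e2 : finRotate 3 2 = 0 := by decide
  ext f
  constructor
  · rintro ⟨g, hg, rfl⟩
    rcases hg with rfl | hg
    · refine ⟨0, ?_⟩
      simp only [RingHom.coe_coe, map_sub, map_mul, rot_X, rot_C, e0, e2]
      rfl
    · rw [Set.mem_singleton_iff] at hg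
      subst hg
      refine ⟨1, ?_⟩
      simp only [RingHom.coe_coe, map_sub, map_mul, rot_X, rot_C, e1, e2]
      rfl
  · rintro ⟨j, rfl⟩
    fin_cases j
    · refine ⟨X 0 - C (p 0) * X 2, Or.inl rfl, ?_⟩
      simp only [RingHom.coe_coe, map_sub, map_mul, rot_X, rot_C, e0, e2]
      rfl
    · refine ⟨X 1 - C (p 1) * X 2, Or.inr rfl, ?_⟩
      simp only [RingHom.coe_coe, map_sub, map_mul, rot_X, rot_C, e1, e2]
      rfl


theorem cons_ne (p : Fin 2 → ℂ) : (Fin.cons 1 p : Fin (2 + 1) → ℂ) ≠ 0 := by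
  intro h0
  have := congrFun h0 0
  simp at this

theorem finrank_eq {r m d : ℕ} (P : Fin r → Fin 2 → ℂ) (hv : ∀ i, (Fin.cons 1 (P i) : Fin (2 + 1) → ℂ) ≠ 0) :
    Module.finrank ℂ (homogeneousSubmodule (Fin (2 + 1)) ℂ d ⊓ Submodule.restrictScalars ℂ
      (symbolicPower m fun i => Projectivization.mk ℂ (Fin.cons 1 (P i) : Fin (2 + 1) → ℂ) (hv i)) :
      Submodule ℂ (MvPolynomial (Fin (2 + 1)) ℂ)) =
    Module.finrank ℂ
      ↥(homogeneousSubmodule (Fin 3) ℂ d ⊓
        Submodule.restrictScalars ℂ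
          (⨅ i : Fin r, (Ideal.span ({X 0 - C (P i 0) * X 2, X 1 - C (P i 1) * X 2} :
            Set (MvPolynomial (Fin 3) ℂ))) ^ m)) := by
  set V := homogeneousSubmodule (Fin 3) ℂ d ⊓
        Submodule.restrictScalars ℂ
          (⨅ i : Fin r, (Ideal.span ({X 0 - C (P i 0) * X 2, X 1 - C (P i 1) * X 2} :
            Set (MvPolynomial (Fin 3) ℂ))) ^ m) with hV
  have hinj : Function.Injective (finRotate 3) := (finRotate 3).injective
  have key : ∀ G : MvPolynomial (Fin 3) ℂ, rot G ∈ (homogeneousSubmodule (Fin (2 + 1)) ℂ d ⊓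
      Submodule.restrictScalars ℂ
      (symbolicPower m fun i => Projectivization.mk ℂ (Fin.cons 1 (P i) : Fin (2 + 1) → ℂ) (hv i)) :
      Submodule ℂ (MvPolynomial (Fin (2 + 1)) ℂ)) ↔ G ∈ V := by
    intro G
    rw [hV, Submodule.mem_inf, Submodule.mem_inf, Submodule.restrictScalars_mem,
      Submodule.restrictScalars_mem, mem_homogeneousSubmodule, mem_homogeneousSubmodule]
    refine and_congr ?_ ?_
    · exact IsHomogeneous.rename_isHomogeneous_iff hinj
    · unfold symbolicPower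
      rw [Ideal.mem_iInf, Ideal.mem_iInf]
      refine forall_congr' fun i => ?_
      rw [primeIdeal_cons, ← map_span_rot, ← Ideal.map_pow]
      have h1 := Ideal.comap_map_of_bijective
        (rot : MvPolynomial (Fin 3) ℂ →+* MvPolynomial (Fin 3) ℂ) rot.bijective
        (I := (Ideal.span ({X 0 - C (P i 0) * X 2, X 1 - C (P i 1) * X 2} :
            Set (MvPolynomial (Fin 3) ℂ))) ^ m)
      conv_rhs => rw [← h1]
      rfl
  have hmap : V.map (rot.toLinearEquiv : MvPolynomial (Fin 3) ℂ →ₗ[ℂ] MvPolynomial (Fin 3) ℂ) =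
      (homogeneousSubmodule (Fin (2 + 1)) ℂ d ⊓
      Submodule.restrictScalars ℂ
      (symbolicPower m fun i => Projectivization.mk ℂ (Fin.cons 1 (P i) : Fin (2 + 1) → ℂ) (hv i)) :
      Submodule ℂ (MvPolynomial (Fin (2 + 1)) ℂ)) := by
    ext G
    rw [Submodule.mem_map]
    constructor
    · rintro ⟨H, hH, rfl⟩
      exact (key H).2 hH
    · intro hG
      refine ⟨rot.symm G, (key _).1 ?_, ?_⟩
      · rw [AlgEquiv.apply_symm_apply]
        exact hG
      · exact rot.apply_symm_apply G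
  rw [← hmap]
  exact LinearEquiv.finrank_map_eq rot.toLinearEquiv V

/-- For `r` general points of the projective plane (one nonempty open set of `r`-tuples for all
degrees) the Hilbert function of `R / I^(m)` has the value
`min (binom (2 + d) 2) (r * binom (2 + m - 1) 2)` in every degree `d` with `good d`; this is
`H_{2,r,m}(d)`. -/
def PlaneFormula (r m : ℕ) (good : ℕ → Prop) : Prop :=
  Generally (fun P : Fin r → ℙ ℂ (Fin (2 + 1) → ℂ) => ∀ d : ℕ, good d →
    hilbert (symbolicPower m P) d = ((min ((2 + d).choose 2) (r * (2 + m - 1).choose 2) : ℕ) : ℤ))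

theorem formula_of {r m : ℕ} {good : ℕ → Prop}
    (h : ∃ F : MvPolynomial (Fin r × Fin 2) ℚ, F ≠ 0 ∧ ∀ P : Fin r → Fin 2 → ℂ,
      MvPolynomial.aeval (fun ij : Fin r × Fin 2 => P ij.1 ij.2) F ≠ 0 →
      ∀ d : ℕ, good d → H932R3.ExpDim ℂ (fun _ => m) P d) : PlaneFormula r m good := by
  obtain ⟨F, hF, hF'⟩ := h
  refine generally_of_affine (F.map (algebraMap ℚ ℂ)) (H932R3.map_ne_zero_of hF)
    fun P hv hP d hd => ?_
  rw [MvPolynomial.eval_map] at hP
  have h2 := hF' P hP d hd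
  unfold H932R3.ExpDim at h2
  rw [Finset.sum_const, Finset.card_univ, Fintype.card_fin, smul_eq_mul] at h2
  unfold hilbert
  rw [finrank_eq P hv, h2]
  have h3 : Module.finrank ℂ (homogeneousSubmodule (Fin (2 + 1)) ℂ d) = (d + 2).choose 2 :=
    TH603.Sur.finrank_forms (K := ℂ) d
  rw [h3, show 2 + d = d + 2 by omega, show 2 + m - 1 = m + 1 by omega]
  rcases le_total ((d + 2).choose 2) (r * (m + 1).choose 2) with h4 | h4
  · rw [min_eq_left h4, Nat.sub_eq_zero_of_le h4]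
    simp
  · rw [min_eq_right h4, Nat.cast_sub h4]
    ring

/-- `m` is exceptional for `r` points: the formula fails for at least one degree -/
def Exceptional (r m : ℕ) : Prop := ¬ PlaneFormula r m fun _ => True

/-- the window -/
theorem window {r : ℕ} (hr : r = 11 ∨ r = 15 ∨ r = 27) {ε : ℝ} (hε : 0 < ε) :
    ∃ m₀ : ℕ, ∀ m : ℕ, m₀ ≤ m → PlaneFormula r m fun d =>
      (r = 27 → 3 ∣ d) ∧ ¬ (3 ∣ d ∧ (√(r : ℝ) - 3) / 2 - ε < (d : ℝ) - √(r : ℝ) * m ∧
        (d : ℝ) - √(r : ℝ) * m < (√(r : ℝ) - 3) / 2) := by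
  obtain ⟨m₀, hm₀⟩ := U11.uniform4 hr hε
  refine ⟨m₀, fun m hm => ?_⟩
  obtain ⟨F, hF, hF'⟩ := hm₀ m hm
  refine formula_of ⟨F, hF, fun P hP d hd => hF' P hP d ?_⟩
  obtain ⟨h1, h2⟩ := hd
  by_cases h3 : 3 ∣ d
  · by_cases h4 : (√(r : ℝ) - 3) / 2 - ε < (d : ℝ) - √(r : ℝ) * m
    · exact Or.inr (Or.inr ⟨h3, not_lt.1 fun h5 => h2 ⟨h3, h4, h5⟩⟩)
    · exact Or.inr (Or.inl ⟨h3, not_lt.1 h4⟩)
  · exact Or.inl ⟨h3, fun h4 => h3 (h1 h4)⟩

/-- an exceptional multiplicity has a multiple of three in the window -/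
theorem exists_degree {r : ℕ} (hr : r = 11 ∨ r = 15) {ε : ℝ} (hε : 0 < ε) :
    ∃ m₀ : ℕ, ∀ m : ℕ, m₀ ≤ m → Exceptional r m → ∃ D : ℕ,
      (√(r : ℝ) - 3) / 2 - ε < (3 * D : ℕ) - √(r : ℝ) * m ∧
        (3 * D : ℕ) - √(r : ℝ) * m < (√(r : ℝ) - 3) / 2 := by
  obtain ⟨m₀, hm₀⟩ := U11.uniform4 (n := r) (by omega) hε
  refine ⟨m₀, fun m hm hex => ?_⟩
  by_contra hcon
  push Not at hcon
  obtain ⟨F, hF, hF'⟩ := hm₀ m hm
  refine hex (formula_of ⟨F, hF, fun P hP d _ => hF' P hP d ?_⟩)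
  by_cases h3 : 3 ∣ d
  · obtain ⟨D, rfl⟩ := h3
    by_cases h4 : (√(r : ℝ) - 3) / 2 - ε < ((3 * D : ℕ) : ℝ) - √(r : ℝ) * m
    · exact Or.inr (Or.inr ⟨dvd_mul_right 3 D, hcon D h4⟩)
    · exact Or.inr (Or.inl ⟨dvd_mul_right 3 D, not_lt.1 h4⟩)
  · exact Or.inl ⟨h3, by omega⟩

theorem irr {r : ℕ} (hr : r = 11 ∨ r = 15) : Irrational √(r : ℝ) := by
  rw [irrational_sqrt_natCast_iff]
  rintro ⟨k, hk⟩
  have : k ≤ 3 := by rcases hr with h | h <;> subst h <;> nlinarith
  interval_cases k <;> omega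

/-- (1) Let `r = 11`, `15` or `27` and `ε > 0`. For all large `m` and `r` general points of the plane
`H_{2,r,m}(d) = min (binom (d + 2) 2) (r * binom (m + 1) 2)` for every `d` (for `r = 27`: every `d`
divisible by three), unless `3` divides `d` and `(√r - 3) / 2 - ε < d - √r m < (√r - 3) / 2`.

(2) Let `r = 11` or `15`. For every `Q` there is an `m₀` such that among any `Q` consecutive
multiplicities `≥ m₀` at most one is exceptional: for all the others the formula holds in every degree. -/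
theorem result :
    (∀ r : ℕ, r = 11 ∨ r = 15 ∨ r = 27 → ∀ ε : ℝ, 0 < ε → ∃ m₀ : ℕ, ∀ m : ℕ, m₀ ≤ m →
      PlaneFormula r m fun d => (r = 27 → 3 ∣ d) ∧
        ¬ (3 ∣ d ∧ (√(r : ℝ) - 3) / 2 - ε < (d : ℝ) - √(r : ℝ) * m ∧
          (d : ℝ) - √(r : ℝ) * m < (√(r : ℝ) - 3) / 2)) ∧
    (∀ r : ℕ, r = 11 ∨ r = 15 → ∀ Q : ℕ, ∃ m₀ : ℕ, ∀ m m' : ℕ, m₀ ≤ m → m < m' →
      Exceptional r m → Exceptional r m' → m + Q ≤ m') := by
  refine ⟨fun r hr ε hε => window hr hε, fun r hr Q => ?_⟩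
  obtain ⟨ε, hε, h⟩ := U11.away (irr hr) Q
  obtain ⟨m₀, hm₀⟩ := exists_degree hr hε
  refine ⟨m₀, fun m m' hm hmm h1 h2 => ?_⟩
  by_contra hcon
  obtain ⟨D, hD1, hD2⟩ := hm₀ m hm h1
  obtain ⟨D', hD1', hD2'⟩ := hm₀ m' (hm.trans hmm.le) h2
  obtain ⟨q, rfl⟩ := Nat.exists_eq_add_of_lt hmm
  have h3 := h (q + 1) (by omega) (by omega) (((3 * D' : ℕ) : ℤ) - ((3 * D : ℕ) : ℤ))
  have h4 : |√(r : ℝ) * ((q + 1 : ℕ) : ℝ) -
      ((((3 * D' : ℕ) : ℤ) - ((3 * D : ℕ) : ℤ) : ℤ) : ℝ)| < ε := by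
    rw [abs_lt]
    push_cast at hD1 hD2 hD1' hD2' ⊢
    constructor <;> nlinarith
  linarith

end Pool.Agent.Results.MP_b56c98_ag.ExceptionalGaps
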